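import Pool.Agent.Run7.h615.WL.WeilDefs

/-!
# Local factors: definitions
-/

set_option autoImplicit false

namespace Run7.h307.LI

open Polynomial Module Run7.h615.WL

section

variable {Ω : Type} [Field Ω] {V : Type} [AddCommGroup V] [Module Ω V] {W : Type} [Group W]

/-- The invariants `V ^ I` of the inertia group `I`, the kernel of `deg`. -/
def invariants (deg : W →* Multiplicative ℤ) (ρ : Representation Ω W V) : Submodule Ω V where
  carrier := {x | ∀ g ∈ deg.ker, ρ g x = x}
  add_mem' := by
    intro x y hx hy g hg
    rw [map_add, hx g hg, hy g hg]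
  zero_mem' := by
    intro g _
    rw [map_zero]
  smul_mem' := by
    intro c x hx g hg
    rw [map_smul, hx g hg]

/-- `f` is the polynomial `det (1 - F T)` of the Frobenius element `F` on the invariants of the inertia
group: if `A` is the matrix of `F` with respect to a basis `b` of the invariants, then
`f = det (1 - A T)`. -/
def IsLocalFactor (deg : W →* Multiplicative ℤ) (ρ : Representation Ω W V) (F : W)
    (f : Polynomial Ω) : Prop :=
  ∃ (m : ℕ) (b : Basis (Fin m) Ω (invariants deg ρ)) (A : Matrix (Fin m) (Fin m) Ω),
    (∀ j, ρ F (b j : V) = ∑ i, A i j • (b i : V)) ∧ f = (1 - (X : Polynomial Ω) • A.map C).det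

/-- The subgroup `J` acts by `exp (t(g) N)`, for a character `t` which is not trivial (for `ℓ ≠ p`, the
`ℓ`-adic tame character of an open subgroup `J` of the inertia group). -/
def ActsByTame (ρ : Representation Ω W V) (N : Module.End Ω V) (J : Subgroup W) : Prop :=
  ∃ t : J →* Multiplicative Ω, t ≠ 1 ∧ ∀ g : J, ρ g = expAt N (Multiplicative.toAdd (t g))

/-- The trace of an endomorphism. -/
noncomputable def tr (T : Module.End Ω V) : Ω := LinearMap.trace Ω V T

/-- The element `g` has the rational trace `a`. -/
def HasTrace [CharZero Ω] (ρ : Representation Ω W V) (g : W) (a : ℚ) : Prop :=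
  tr (ρ g) = (a : Ω)

/-- The eigenvalues of the element `g` are algebraic integers. -/
def IsIntegralAt (ρ : Representation Ω W V) (g : W) : Prop :=
  ∀ (α : Ω) (v : V), v ≠ 0 → ρ g v = α • v → IsIntegral ℤ α

end

end Run7.h307.LI
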