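import Pool.Agent.Run7.h307.LI.Trace

/-!
# The traces on the kernel of the monodromy operator do not depend on `ℓ`
-/

set_option autoImplicit false
set_option linter.unusedSectionVars false

namespace Run7.h307.LI

open Polynomial Module Pool.Agent.Y143 Run7.h615.WL

section

variable {Λ : Type} {Ω : Λ → Type} [∀ l, Field (Ω l)] [∀ l, CharZero (Ω l)]
  [∀ l, IsAlgClosed (Ω l)] {V : Λ → Type} [∀ l, AddCommGroup (V l)] [∀ l, Module (Ω l) (V l)]
  [∀ l, FiniteDimensional (Ω l) (V l)]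

lemma pe_of_charpoly {Ω V : Type} [Field Ω] [CharZero Ω] [AddCommGroup V] [Module Ω V]
    [FiniteDimensional Ω V] [IsAlgClosed Ω] {g : Module.End Ω V} {χ : ℚ[X]}
    (h : g.charpoly = χ.map (algebraMap ℚ Ω)) : pe g χ = 0 := by
  unfold pe
  rw [← h]
  exact LinearMap.aeval_self_charpoly g

/-- The dichotomy for the irreducible factors of the characteristic polynomial. -/
lemma dichotomy {Ω V : Type} [Field Ω] [CharZero Ω] [AddCommGroup V] [Module Ω V]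
    [FiniteDimensional Ω V] [IsAlgClosed Ω] {q : ℕ} {m d : ℤ} {g : Module.End Ω V}
    {M : ℤ → Submodule Ω V} (H : Fil q m d g M) {χ : ℚ[X]}
    (h : g.charpoly = χ.map (algebraMap ℚ Ω)) (T : ℝ) (f : ℚ[X]) (hf : Irreducible f)
    (hfχ : f ∣ χ) : (∀ z : ℂ, aeval z f = 0 → ‖z‖ ≤ T) ∨ ∀ z : ℂ, aeval z f = 0 → T < ‖z‖ := by
  obtain ⟨β, hβ⟩ := IsAlgClosed.exists_aeval_eq_zero Ω f
    (Polynomial.degree_pos_of_irreducible hf).ne'
  have h1 : g.charpoly.IsRoot β := by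
    obtain ⟨C, hC⟩ := hfχ
    rw [h, IsRoot.def, eval_map_algebraMap, hC, map_mul, hβ, zero_mul]
  have h2 := (Module.End.hasEigenvalue_iff_isRoot_charpoly g β).2 h1
  obtain ⟨y, hy⟩ := h2.exists_hasEigenvector
  obtain ⟨s, hs⟩ := H.exists_weil hy.2 hy.apply_eq_smul
  rcases le_or_gt ((q : ℝ) ^ ((((m + s) * d : ℤ) : ℝ) / 2)) T with h3 | h3
  · left
    intro z hz
    rwa [norm_of_irreducible hf hβ hs hz]
  · right
    intro z hz
    rwa [norm_of_irreducible hf hβ hs hz]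

/-- There are a rational polynomial which gives the projections onto the step `s` for all `ℓ`. -/
theorem exists_projector {q : ℕ} {m d : ℤ} (g : ∀ l, Module.End (Ω l) (V l))
    (M : ∀ l, ℤ → Submodule (Ω l) (V l)) (H : ∀ l, Fil q m d (g l) (M l)) (χ : ℚ[X])
    (hχ0 : χ ≠ 0) (hχ : ∀ l, (g l).charpoly = χ.map (algebraMap ℚ (Ω l))) (s : ℤ) :
    ∃ e : ℚ[X], ∀ l, (∀ x, pe (g l) e x ∈ M l s) ∧ ∀ x ∈ M l s, pe (g l) e x = x := by
  by_cases hΛ : Nonempty Λ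
  · obtain ⟨l0⟩ := hΛ
    obtain ⟨A, B, hAB, hA, hB⟩ := exists_split (absv q m d s) χ hχ0
      (fun f hf hfχ => dichotomy (H l0) (hχ l0) _ f hf hfχ)
    obtain ⟨u, v, huv⟩ := isCoprime_of_split hA hB
    refine ⟨v * B, fun l => ?_⟩
    apply (H l).proj (A := A) (B := B) (u := u) (v := v) ?_ huv s hA hB
    rw [← hAB]
    exact pe_of_charpoly (hχ l)
  · exact ⟨0, fun l => absurd ⟨l⟩ hΛ⟩

theorem exists_trace_ker {q : ℕ} {m d : ℤ} (g N : ∀ l, Module.End (Ω l) (V l))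
    (M : ∀ l, ℤ → Submodule (Ω l) (V l)) (H : ∀ l, Fil q m d (g l) (M l))
    (hN : ∀ l, IsMonodromyFiltration (N l) (M l)) (c : ℚ)
    (hc : ∀ l x, N l (g l x) = (c : Ω l) • g l (N l x)) (χ : ℚ[X])
    (hχ0 : χ ≠ 0) (hχ : ∀ l, (g l).charpoly = χ.map (algebraMap ℚ (Ω l))) (τ : ℕ → ℚ)
    (hτ : ∀ l k, 0 < k → LinearMap.trace (Ω l) (V l) (g l ^ k) = (τ k : Ω l)) :
    ∃ t : ℚ, ∀ l, LinearMap.trace (Ω l) (LinearMap.ker (N l)) ((g l).restrict
      (ker_stable (hc l))) = (t : Ω l) := by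
  obtain ⟨e0, he0⟩ := exists_projector g M H χ hχ0 hχ 0
  obtain ⟨e2, he2⟩ := exists_projector g M H χ hχ0 hχ (-2)
  have key : ∀ e : ℚ[X], ∃ t : ℚ, ∀ l, LinearMap.trace (Ω l) (V l) (g l * pe (g l) e) =
      (t : Ω l) := by
    intro e
    refine ⟨∑ k ∈ Finset.range ((X * e).natDegree + 1), (X * e).coeff k * τ k, fun l => ?_⟩
    have h1 : g l * pe (g l) e = pe (g l) (X * e) := by rw [pe_mul, pe_X]
    rw [h1]
    exact trace_pe (g l) (X * e) (by rw [mul_coeff_zero, coeff_X_zero, zero_mul]) τ (hτ l)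
  obtain ⟨t0, ht0⟩ := key e0
  obtain ⟨t2, ht2⟩ := key e2
  refine ⟨t0 - c * t2, fun l => ?_⟩
  rw [trace_ker (hN l) ((H l).stab 0) (hc l) (he0 l).1 (he0 l).2 (he2 l).1 (he2 l).2, ht0, ht2]
  push_cast
  ring

end

end Run7.h307.LI
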