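import Pool.Agent.Run7.h307.WM2.Defs
import Pool.Agent.Run7.h307.LI.Defs

/-!
# One family, all primes `ℓ`: definitions
-/

set_option autoImplicit false

namespace Run7.h307.LI

open Polynomial Module Pool.Agent.Y143 Run7.h307.WM Run7.h307.WM2 Run7.h615.WL

section

variable {Ω Ω' : Type} [Field Ω] [CharZero Ω] [Field Ω'] [CharZero Ω'] {n q r : ℕ}

/-- The bijection `θ` is `σ`-linear and carries the operators `Φ`, `N₂` and `N j` to `Φ'`, `N₂'` and
`N' j`. -/
structure IsSemilinearIso {V V' : Type} [AddCommGroup V] [Module Ω V] [AddCommGroup V']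
    [Module Ω' V'] (σ : Ω ≃+* Ω') (Φ N₂ : Module.End Ω V) (N : Fin r → Module.End Ω V)
    (Φ' N₂' : Module.End Ω' V') (N' : Fin r → Module.End Ω' V') (θ : V ≃+ V') : Prop where
  smul : ∀ c x, θ (c • x) = σ c • θ x
  frob : ∀ x, θ (Φ x) = Φ' (θ x)
  mon : ∀ x, θ (N₂ x) = N₂' (θ x)
  cone : ∀ j x, θ (N j x) = N' j (θ x)

/-- The limit cohomology groups of the family for two primes `ℓ` and `ℓ'`, with the Frobenius, the
monodromy operator `N_K` of `K` and the geometric monodromy operators `N_j`, are isomorphic if one
identifies the coefficient fields by an isomorphism `σ` (an algebraic closure of `ℚ_ℓ` is isomorphic to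
`ℂ`). For example, this holds for all `ℓ` and `ℓ'` if the family is defined over a number field and
the motives of the strata of `Y` are of Tate type: then the limit motive is a mixed Tate motive over
a number field, `Φ` is `q ^ k` on the part of weight `2 k`, and the operators `N_K` (given by the
valuations of the extension classes) and `N_j` are rational in a basis of eigenvectors of `Φ`. -/
def SameLimit (X : PolyFamily Ω n q r) (X' : PolyFamily Ω' n q r) : Prop :=
  ∃ σ : Ω ≃+* Ω', ∀ i, ∃ θ : X.limit.V i ≃+ X'.limit.V i,
    IsSemilinearIso σ (X.limit.frob i) (X.limit.mon i) (fun j => X.cone.N j i)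
      (X'.limit.frob i) (X'.limit.mon i) (fun j => X'.cone.N j i) θ

end

instance {Ω : Type} [Field Ω] {W : Type} [Group W] {deg : W →* Multiplicative ℤ} {q : ℕ}
    (R : WeilRep.{0, 0} Ω deg q) : Module.Finite Ω R.V := R.isWeilRep.finite

/-- The family `f : 𝒳 → B`, seen through the primes `ℓ` in the set `Λ` (all primes different from `p`, with
`Ω ℓ` an algebraic closure of `ℚ_ℓ`): for each `ℓ` the data `X ℓ` of the degeneration, and the points
`t` of `B - D` with values in finite extensions of `K`, with their residue degrees and the valuations of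
the `u_j(t)`. `disc ℓ` is the set of the points of the polydisc on which the local constancy of the
`ℓ`-adic cohomology holds. -/
structure Realizations (Λ : Type) (Ω : Λ → Type) [∀ l, Field (Ω l)] [∀ l, CharZero (Ω l)]
    (n q r : ℕ) where
  X : ∀ l, PolyFamily (Ω l) n q r
  Point : Type
  deg : Point → ℕ
  val : Point → Fin r → ℚ
  disc : Λ → Set Point
  pt : ∀ l, disc l → (X l).fibres.Point
  deg_pos : ∀ t, 0 < deg t
  deg_pt : ∀ l t, (X l).fibres.deg (pt l t) = deg t
  val_pt : ∀ l t, (X l).fibres.valuation (pt l t) = val t

/-- A variety (or a motive) over a field `K'` with residue field with `q'` elements, in one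
cohomological degree, dominated by the fibre `X_t`, whose field of definition `K(t)` is a finite
extension of `K'` of residue degree `f`.

* `W` is the Weil group of `K'`, `R ℓ` is the representation of `W` on the `ℓ`-adic realization, with
  its monodromy operator;
* `dom`: for the primes `ℓ` such that `t` belongs to the polydisc, `R ℓ` is a direct summand of
  `H^m(X_t)`, as a representation of the Weil group of `K(t)`;
* `J` is an open subgroup of the inertia group which acts on `R ℓ` by `exp (t_ℓ(g) N)`, for all `ℓ`
  (it exists: Grothendieck's monodromy theorem, uniform in `ℓ` by the semistable alterations of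
  de Jong). -/
structure Realizations.Dominated {Λ : Type} {Ω : Λ → Type} [∀ l, Field (Ω l)]
    [∀ l, CharZero (Ω l)] {n q r : ℕ} (Y : Realizations Λ Ω n q r) (t : Y.Point) (m : ℕ) where
  W : Type
  [group : Group W]
  degree : W →* Multiplicative ℤ
  q' : ℕ
  f : ℕ
  R : ∀ l, WeilRep.{0, 0} (Ω l) degree q'
  residue : q' ^ f = q ^ Y.deg t
  dom : ∀ l (h : t ∈ Y.disc l), Domination (R l) f ((Y.X l).fibres.frob (Y.pt l ⟨t, h⟩) m)
    ((Y.X l).fibres.mon (Y.pt l ⟨t, h⟩) m)
  J : Subgroup W
  J_le : J ≤ degree.ker
  J_index : J.relIndex degree.ker ≠ 0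
  J_acts : ∀ l, ActsByTame (R l).ρ (R l).N J

attribute [instance] Realizations.Dominated.group

/-- The traces of the elements of the Weil group of positive degree are rational numbers which do not
depend on `ℓ`. (For the alternating sum over all degrees of the traces on `H^m(X)` this is a theorem
of Ochiai and Saito. So the condition holds for `H^3(X)` if `X` is a threefold with `h^(2,0) = 0`: the
other cohomology groups of `X` are given by the Picard variety and by divisor classes.) -/
def Realizations.Dominated.HasRationalTraces {Λ : Type} {Ω : Λ → Type} [∀ l, Field (Ω l)]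
    [∀ l, CharZero (Ω l)] {n q r : ℕ} {Y : Realizations Λ Ω n q r} {t : Y.Point} {m : ℕ}
    (M : Y.Dominated t m) : Prop :=
  ∀ g, 0 < Multiplicative.toAdd (M.degree g) → ∃ a : ℚ, ∀ l, HasTrace (M.R l).ρ g a

/-- The eigenvalues of the elements of the Weil group of positive degree are algebraic integers
(this is known for the cohomology groups of smooth proper varieties, SGA 7). -/
def Realizations.Dominated.HasIntegralEigenvalues {Λ : Type} {Ω : Λ → Type} [∀ l, Field (Ω l)]
    [∀ l, CharZero (Ω l)] {n q r : ℕ} {Y : Realizations Λ Ω n q r} {t : Y.Point} {m : ℕ}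
    (M : Y.Dominated t m) : Prop :=
  ∀ g, 0 < Multiplicative.toAdd (M.degree g) → ∀ l, IsIntegralAt (M.R l).ρ g

end Run7.h307.LI
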