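import Pool.Agent.Run7.h307.LI.Local

/-!
# Independence of `ℓ` of the local factors of compatible pure families
-/

set_option autoImplicit false
set_option linter.unusedSectionVars false

namespace Run7.h307.LI

open Polynomial Module Pool.Agent.Y143 Run7.h615.WL

section

variable {Λ : Type} {Ω : Λ → Type} [∀ l, Field (Ω l)] [∀ l, CharZero (Ω l)]
  [∀ l, IsAlgClosed (Ω l)] {V : Λ → Type} [∀ l, AddCommGroup (V l)] [∀ l, Module (Ω l) (V l)]
  [∀ l, FiniteDimensional (Ω l) (V l)] {W : Type} [Group W]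

lemma trace_rat {Ω V : Type} [Field Ω] [CharZero Ω] [AddCommGroup V] [Module Ω V]
    [FiniteDimensional Ω V] {g : Module.End Ω V} {χ : ℚ[X]}
    (h : g.charpoly = χ.map (algebraMap ℚ Ω)) :
    LinearMap.trace Ω V g = ((-χ.nextCoeff : ℚ) : Ω) := by
  classical
  let b := Module.finBasis Ω V
  rw [LinearMap.trace_eq_matrix_trace Ω b, Matrix.trace_eq_neg_charpoly_nextCoeff,
    LinearMap.charpoly_toMatrix, h, nextCoeff_map (algebraMap ℚ Ω).injective]
  simp

lemma coeff_zero_ne {Ω V : Type} [Field Ω] [AddCommGroup V] [Module Ω V]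
    [FiniteDimensional Ω V] {g : Module.End Ω V} (hg : IsUnit g) : g.charpoly.coeff 0 ≠ 0 := by
  intro h0
  have h1 := LinearMap.det_eq_sign_charpoly_coeff g
  rw [h0, mul_zero] at h1
  have h2 : IsUnit (LinearMap.det g) := hg.map LinearMap.det
  exact h2.ne_zero h1

/-- The traces of the powers determine the characteristic polynomials. -/
lemma exists_charpoly (g : ∀ l, Module.End (Ω l) (V l)) (hg : ∀ l, IsUnit (g l)) (τ : ℕ → ℚ)
    (hτ : ∀ l k, 0 < k → LinearMap.trace (Ω l) (V l) (g l ^ k) = (τ k : Ω l)) :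
    ∃ χ : ℚ[X], ∀ l, (g l).charpoly = χ.map (algebraMap ℚ (Ω l)) := by
  classical
  by_cases hΛ : Nonempty Λ
  swap
  · exact ⟨0, fun l => absurd ⟨l⟩ hΛ⟩
  obtain ⟨l0⟩ := hΛ
  let b := fun l => Module.finBasis (Ω l) (V l)
  let A := fun l => LinearMap.toMatrix (b l) (b l) (g l)
  have hA : ∀ l k, (A l).charpolyRev.coeff k = (Pool.Agent.R401.Tr4.cf τ k : Ω l) := by
    intro l k
    apply Pool.Agent.R401.Tr4.coeff_eq
    intro k
    rw [← hτ l (k + 1) (Nat.succ_pos k), LinearMap.trace_eq_matrix_trace (Ω l) (b l),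
      ← LinearMap.toMatrix_pow]
  have hch : ∀ l, (A l).charpoly = (g l).charpoly := fun l => LinearMap.charpoly_toMatrix _ _
  have hcoeff : ∀ l k, (g l).charpoly.coeff k =
      (Pool.Agent.R401.Tr4.cf τ (revAt (finrank (Ω l) (V l)) k) : Ω l) := by
    intro l k
    rw [← hA l, ← Matrix.reverse_charpoly, coeff_reverse, Matrix.charpoly_natDegree_eq_dim,
      Fintype.card_fin, revAt_invol, hch]
  have htop : ∀ l, Pool.Agent.R401.Tr4.cf τ (finrank (Ω l) (V l)) ≠ 0 := by
    intro l h0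
    apply coeff_zero_ne (hg l)
    rw [hcoeff, revAt_le (Nat.zero_le _), Nat.sub_zero, h0, Rat.cast_zero]
  have hbig : ∀ l k, finrank (Ω l) (V l) < k → Pool.Agent.R401.Tr4.cf τ k = 0 := by
    intro l k hk
    have h1 : (A l).charpolyRev.coeff k = 0 := by
      apply coeff_eq_zero_of_natDegree_lt
      have := Pool.Agent.R401.Tr4.natDegree_charpolyRev (A l)
      omega
    rw [hA] at h1
    exact_mod_cast h1
  have hdim : ∀ l, finrank (Ω l) (V l) = finrank (Ω l0) (V l0) := by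
    intro l
    rcases lt_trichotomy (finrank (Ω l) (V l)) (finrank (Ω l0) (V l0)) with h | h | h
    · exact absurd (hbig l _ h) (htop l0)
    · exact h
    · exact absurd (hbig l0 _ h) (htop l)
  obtain ⟨n, hn⟩ : ∃ n, finrank (Ω l0) (V l0) = n := ⟨_, rfl⟩
  refine ⟨∑ k ∈ Finset.range (n + 1), monomial k (Pool.Agent.R401.Tr4.cf τ (revAt n k)),
    fun l => ?_⟩
  ext k
  rw [coeff_map, finsetSum_coeff]
  simp only [coeff_monomial]
  rw [Finset.sum_ite_eq', hcoeff, hdim, hn]
  by_cases hk : k ∈ Finset.range (n + 1)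
  · rw [if_pos hk]
    simp
  · rw [if_neg hk]
    rw [Finset.mem_range] at hk
    rw [revAt_eq_self_of_lt (by omega), hbig l0 k (by omega)]
    simp

/-- A basis of the invariants gives a local factor. -/
lemma exists_isLocalFactor {Ω V : Type} [Field Ω] [AddCommGroup V] [Module Ω V]
    [FiniteDimensional Ω V] {deg : W →* Multiplicative ℤ} {ρ : Representation Ω W V} (F : W)
    (hinv : ∀ x ∈ invariants deg ρ, ρ F x ∈ invariants deg ρ) : ∃ f, IsLocalFactor deg ρ F f := by
  classical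
  let b := Module.finBasis Ω (invariants deg ρ)
  refine ⟨_, _, b, LinearMap.toMatrix b b ((ρ F).restrict hinv), fun j => ?_, rfl⟩
  have h1 := congrArg Subtype.val (LinearMap.congr_fun
    (Matrix.toLin_toMatrix b b ((ρ F).restrict hinv)) (b j))
  rw [Matrix.toLin_self] at h1
  have h2 : (((ρ F).restrict hinv) (b j) : V) = ρ F (b j : V) := rfl
  rw [← h2, ← h1]
  simp

/-- **Pure compatible families have local factors which do not depend on `ℓ`.** -/
theorem exists_factor {q : ℕ} (hq : 1 < q) {m : ℤ} {deg : W →* Multiplicative ℤ}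
    {ρ : ∀ l, Representation (Ω l) W (V l)} {N : ∀ l, Module.End (Ω l) (V l)}
    (hrep : ∀ l, IsWeilRep q deg (ρ l) (N l)) (hpure : ∀ l, IsPureRep q m deg (ρ l) (N l))
    {J : Subgroup W} (hJ : J ≤ deg.ker) (hJi : J.relIndex deg.ker ≠ 0)
    (ht : ∀ l, ActsByTame (ρ l) (N l) J)
    (htr : ∀ g, 0 < Multiplicative.toAdd (deg g) → ∃ a : ℚ, ∀ l,
      LinearMap.trace (Ω l) (V l) (ρ l g) = (a : Ω l))
    {F : W} (hF : deg F = Multiplicative.ofAdd 1) :
    ∃ P : ℚ[X], ∀ l f, IsLocalFactor deg (ρ l) F f ↔ f = P.map (algebraMap ℚ (Ω l)) := by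
  classical
  have hfi : (J.subgroupOf deg.ker).FiniteIndex := ⟨hJi⟩
  have hfin : Finite (deg.ker ⧸ J.subgroupOf deg.ker) := Subgroup.finite_quotient_of_finiteIndex
  have := Fintype.ofFinite (deg.ker ⧸ J.subgroupOf deg.ker)
  by_cases hΛ : Nonempty Λ
  swap
  · exact ⟨0, fun l => absurd ⟨l⟩ hΛ⟩
  obtain ⟨l0⟩ := hΛ
  -- the traces on the kernels
  have hker : ∀ g, 0 < Multiplicative.toAdd (deg g) → ∃ t : ℚ, ∀ l
      (hg : ∀ x ∈ LinearMap.ker (N l), ρ l g x ∈ LinearMap.ker (N l)),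
      LinearMap.trace (Ω l) (LinearMap.ker (N l)) ((ρ l g).restrict hg) = (t : Ω l) := by
    intro g hg
    have hpow : ∀ k : ℕ, 0 < k → ∃ τ : ℚ, ∀ l, LinearMap.trace (Ω l) (V l) (ρ l g ^ k) =
        (τ : Ω l) := by
      intro k hk
      obtain ⟨a, h2⟩ := htr (g ^ k) (by
        rw [map_pow, toAdd_pow]
        positivity)
      refine ⟨a, fun l => ?_⟩
      rw [← map_pow]
      exact h2 l
    choose τ hτ using fun k : ℕ => (show ∃ τ : ℚ, 0 < k → ∀ l,
      LinearMap.trace (Ω l) (V l) (ρ l g ^ k) = (τ : Ω l) by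
        rcases Nat.eq_zero_or_pos k with rfl | hk
        · exact ⟨0, fun h => absurd h (lt_irrefl _)⟩
        · obtain ⟨τ, hτ⟩ := hpow k hk
          exact ⟨τ, fun _ => hτ⟩)
    obtain ⟨χ, h1⟩ := exists_charpoly (fun l => ρ l g) (fun l => ⟨⟨ρ l g, ρ l g⁻¹, by
      rw [← map_mul, mul_inv_cancel, map_one], by
      rw [← map_mul, inv_mul_cancel, map_one]⟩, rfl⟩) τ (fun l k hk => hτ k hk l)
    choose M hM hstab hweil using hpure
    have hχ0 : χ ≠ 0 := by
      intro h0
      have h2 := h1 l0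
      rw [h0, Polynomial.map_zero] at h2
      exact (LinearMap.charpoly_monic (ρ l0 g)).ne_zero h2
    obtain ⟨t, ht⟩ := exists_trace_ker (q := q) (m := m) (d := Multiplicative.toAdd (deg g))
      (fun l => ρ l g) N M
      (fun l => ⟨hq, hg, (hM l).mono, (hM l).bot, (hM l).top, fun s x hx => hstab l g s x hx,
        fun s => hweil l g s⟩) hM ((q : ℚ) ^ Multiplicative.toAdd (deg g))
      (fun l x => by
        rw [(hrep l).comm g x]
        congr 1
        push_cast
        rfl) χ hχ0 h1 τ (fun l k hk => hτ k hk l)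
    exact ⟨t, fun l hg => ht l⟩
  choose! T hT using hker
  -- the traces of the powers of the Frobenius on the invariants
  let s : ℕ → ℚ := fun k => (Fintype.card (deg.ker ⧸ J.subgroupOf deg.ker) : ℚ)⁻¹ *
    ∑ c : deg.ker ⧸ J.subgroupOf deg.ker, T (F ^ k * ((c.out : deg.ker) : W))
  have hs : ∀ l (m : ℕ) (b : Basis (Fin m) (Ω l) (invariants deg (ρ l)))
      (A : Matrix (Fin m) (Fin m) (Ω l)),
      (∀ j, ρ l F (b j : V l) = ∑ i, A i j • (b i : V l)) → ∀ k,
      A.charpolyRev.coeff k = (Pool.Agent.R401.Tr4.cf s k : Ω l) := by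
    intro l m b A hA k
    apply Pool.Agent.R401.Tr4.coeff_eq A s
    intro k
    rw [trace_inv hJ (hrep l).nilpotent (ht l) (hrep l).comm (T := fun g => (T g : Ω l))
      (fun g hg h0 => hT g h0 l hg) hF b A hA k]
    simp only [s]
    push_cast
    rfl
  have hinv : ∀ l, ∀ x ∈ invariants deg (ρ l), ρ l F x ∈ invariants deg (ρ l) :=
    fun l x hx => inv_stable F hx
  obtain ⟨f0, m0, b0, A0, hA0, hf0⟩ := exists_isLocalFactor F (hinv l0)
  obtain ⟨P, hP⟩ : ∃ P : ℚ[X], P = ∑ k ∈ Finset.range (m0 + 1),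
    monomial k (Pool.Agent.R401.Tr4.cf s k) := ⟨_, rfl⟩
  have hPc : ∀ k, P.coeff k = Pool.Agent.R401.Tr4.cf s k := by
    intro k
    rw [hP, finsetSum_coeff]
    simp only [coeff_monomial]
    rw [Finset.sum_ite_eq']
    by_cases hk : k ∈ Finset.range (m0 + 1)
    · rw [if_pos hk]
    · rw [if_neg hk]
      have h1 : A0.charpolyRev.coeff k = 0 := by
        apply coeff_eq_zero_of_natDegree_lt
        have := Pool.Agent.R401.Tr4.natDegree_charpolyRev A0
        rw [Finset.mem_range] at hk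
        omega
      rw [hs l0 m0 b0 A0 hA0 k] at h1
      exact_mod_cast h1.symm
  have hfac : ∀ l f, IsLocalFactor deg (ρ l) F f → f = P.map (algebraMap ℚ (Ω l)) := by
    rintro l f ⟨m, b, A, hA, rfl⟩
    ext k
    rw [coeff_map, hPc]
    have := hs l m b A hA k
    simpa [Matrix.charpolyRev] using this
  refine ⟨P, fun l f => ⟨hfac l f, ?_⟩⟩
  rintro rfl
  obtain ⟨f, hf⟩ := exists_isLocalFactor F (hinv l)
  rwa [← hfac l f hf]

/-- The coefficients of the local factor are integral. -/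
lemma IsLocalFactor.integral {Ω V : Type} [Field Ω] [CharZero Ω] [IsAlgClosed Ω] [AddCommGroup V]
    [Module Ω V] [FiniteDimensional Ω V] {deg : W →* Multiplicative ℤ} {ρ : Representation Ω W V}
    {F : W} (hχ : ∀ (α : Ω) (v : V), v ≠ 0 → ρ F v = α • v → IsIntegral ℤ α) {f : Polynomial Ω}
    (hf : IsLocalFactor deg ρ F f) (k : ℕ) : IsIntegral ℤ (f.coeff k) := by
  classical
  obtain ⟨m, b, A, hA, rfl⟩ := hf
  have hinv : ∀ x ∈ invariants deg ρ, ρ F x ∈ invariants deg ρ := fun x hx => inv_stable F hx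
  have h4 : (ρ F).restrict hinv = Matrix.toLin b b A := by
    refine b.ext fun j => Subtype.ext ?_
    rw [Matrix.toLin_self]
    show ρ F (b j : V) = _
    rw [hA j]
    simp
  have hroot : ∀ z ∈ A.charpoly.roots, IsIntegral ℤ z := by
    intro z hz
    have hz1 : A.charpoly.IsRoot z := (mem_roots A.charpoly_monic.ne_zero).1 hz
    have h5 : A.charpoly = ((ρ F).restrict hinv).charpoly := by
      rw [h4, ← LinearMap.charpoly_toMatrix _ b, LinearMap.toMatrix_toLin]
    rw [h5] at hz1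
    have h2 := (Module.End.hasEigenvalue_iff_isRoot_charpoly _ z).2 hz1
    obtain ⟨y, hy⟩ := h2.exists_hasEigenvector
    exact hχ z (y : V) (fun h0 => hy.2 (Subtype.ext h0)) (congrArg Subtype.val hy.apply_eq_smul)
  have h8 : ∀ i, IsIntegral ℤ (A.charpoly.coeff i) := by
    intro i
    have h9 : A.charpoly = (A.charpoly.roots.map fun z => X - C z).prod := by
      have := (IsAlgClosed.splits A.charpoly).eq_prod_roots
      rwa [A.charpoly_monic.leadingCoeff, C_1, one_mul] at this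
    rw [h9]
    exact Pool.Agent.R401.Tr4.coeff_prod_integral _ hroot i
  have h9 : (1 - (X : Polynomial Ω) • A.map C).det = A.charpoly.reverse := by
    rw [Matrix.reverse_charpoly]
    rfl
  rw [h9, coeff_reverse]
  exact h8 _

/-- The version with integral coefficients. -/
theorem exists_factor_int {q : ℕ} (hq : 1 < q) {m : ℤ} {deg : W →* Multiplicative ℤ}
    {ρ : ∀ l, Representation (Ω l) W (V l)} {N : ∀ l, Module.End (Ω l) (V l)}
    (hrep : ∀ l, IsWeilRep q deg (ρ l) (N l)) (hpure : ∀ l, IsPureRep q m deg (ρ l) (N l))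
    {J : Subgroup W} (hJ : J ≤ deg.ker) (hJi : J.relIndex deg.ker ≠ 0)
    (ht : ∀ l, ActsByTame (ρ l) (N l) J)
    (htr : ∀ g, 0 < Multiplicative.toAdd (deg g) → ∃ a : ℚ, ∀ l,
      LinearMap.trace (Ω l) (V l) (ρ l g) = (a : Ω l))
    {F : W} (hF : deg F = Multiplicative.ofAdd 1)
    (hint : ∀ l (α : Ω l) (v : V l), v ≠ 0 → ρ l F v = α • v → IsIntegral ℤ α) :
    ∃ P : ℤ[X], ∀ l f, IsLocalFactor deg (ρ l) F f ↔ f = P.map (Int.castRingHom (Ω l)) := by
  classical
  by_cases hΛ : Nonempty Λ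
  swap
  · exact ⟨0, fun l => absurd ⟨l⟩ hΛ⟩
  obtain ⟨l0⟩ := hΛ
  obtain ⟨P, hP⟩ := exists_factor hq hrep hpure hJ hJi ht htr hF
  have hint' : ∀ k, ∃ z : ℤ, P.coeff k = z := by
    intro k
    have h1 := IsLocalFactor.integral (hint l0) ((hP l0 _).2 rfl) k
    rw [coeff_map] at h1
    have h2 : IsIntegral ℤ (P.coeff k) := by
      have h3 : Function.Injective (algebraMap ℚ (Ω l0)) := (algebraMap ℚ (Ω l0)).injective
      exact (isIntegral_algebraMap_iff h3).1 h1
    obtain ⟨z, hz⟩ := IsIntegrallyClosed.isIntegral_iff.1 h2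
    exact ⟨z, hz.symm⟩
  choose z hz using hint'
  obtain ⟨Q, hQ⟩ : ∃ Q : ℤ[X], Q.map (Int.castRingHom ℚ) = P := by
    refine ⟨∑ k ∈ Finset.range (P.natDegree + 1), monomial k (z k), ?_⟩
    rw [Polynomial.map_sum]
    conv_rhs => rw [P.as_sum_range]
    refine Finset.sum_congr rfl fun k _ => ?_
    rw [Polynomial.map_monomial, hz k]
    rfl
  refine ⟨Q, fun l f => ?_⟩
  rw [hP l f, ← hQ, Polynomial.map_map]
  have : (algebraMap ℚ (Ω l)).comp (Int.castRingHom ℚ) = Int.castRingHom (Ω l) :=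
    RingHom.ext_int _ _
  rw [this]

end

end Run7.h307.LI
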