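import Pool.Agent.Run7.h307.LI.Geo
import Pool.Agent.Run7.h307.LI.Indep
import Pool.Agent.Run7.h615.WL.Weil

/-!
# The local factors of the fibres near a normal crossing fibre
-/

set_option autoImplicit false
set_option linter.unusedSectionVars false

namespace Run7.h307.LI

open Polynomial Module Pool.Agent.Y143 Run7.h307.WM Run7.h307.WM2 Run7.h615.WL

section

variable {Ω : Type} [Field Ω] {V : Type} [AddCommGroup V] [Module Ω V] {W : Type} [Group W]

lemma IsLocalFactor.congr {deg : W →* Multiplicative ℤ} {ρ : Representation Ω W V} {F F' : W}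
    (h : deg F = deg F') {f : Polynomial Ω} (hf : IsLocalFactor deg ρ F f) :
    IsLocalFactor deg ρ F' f := by
  obtain ⟨m, b, A, hA, rfl⟩ := hf
  refine ⟨m, b, A, fun j => ?_, rfl⟩
  rw [← hA j]
  have h1 : F' = F * (F⁻¹ * F') := by group
  have h2 : F⁻¹ * F' ∈ deg.ker := by
    rw [MonoidHom.mem_ker, map_mul, map_inv, h, inv_mul_cancel]
  rw [h1, map_mul, Module.End.mul_apply]
  congr 1
  exact (b j).2 _ h2

end

section

variable {Λ : Type} {Ω : Λ → Type} [∀ l, Field (Ω l)] [∀ l, CharZero (Ω l)]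
  [∀ l, IsAlgClosed (Ω l)] {n q r : ℕ}

lemma Realizations.Dominated.pure {Y : Realizations Λ Ω n q r}
    (hq : 1 < q) (h : ∀ l, (Y.X l).StrataPure) {t : Y.Point} {m : ℕ} (M : Y.Dominated t m) (l : Λ)
    (hl : t ∈ Y.disc l) (hv : Y.val t ∉ badSet (Y.X l)) : (M.R l).IsPure m := by
  have h1 := (main' hq (Y.X l) (h l)).2.2 (Y.pt l ⟨t, hl⟩) (by rw [Y.val_pt]; exact hv) m
  rw [Y.deg_pt, ← M.residue] at h1
  refine isPureRep_of_dominated (M.R l) (M.dom l hl) (fun h0 => ?_) h1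
  have h2 : 0 < q ^ Y.deg t := pow_pos (by omega) _
  rw [← M.residue, h0, zero_pow (M.dom l hl).extension.pos.ne'] at h2
  exact lt_irrefl _ h2

lemma Realizations.Dominated.one_lt {Y : Realizations Λ Ω n q r}
    (hq : 1 < q) {t : Y.Point} {m : ℕ} (M : Y.Dominated t m) : 1 < M.q' := by
  by_contra h0
  have h1 : M.q' ^ M.f ≤ 1 := pow_le_one' (by omega) _
  rw [M.residue] at h1
  exact absurd (Nat.one_lt_pow (Y.deg_pos t).ne' hq) (not_lt.2 h1)

/-- The local factors, over `ℚ`. -/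
theorem factors_rat (hq : 1 < q) (Y : Realizations Λ Ω n q r) (h : ∀ l, (Y.X l).StrataPure)
    (t : Y.Point) (m : ℕ) (M : Y.Dominated t m)
    (hc : M.HasRationalTraces) :
    ∃ P : ℚ[X], ∀ l, t ∈ Y.disc l → Y.val t ∉ badSet (Y.X l) → ∀ F,
      M.degree F = Multiplicative.ofAdd 1 → ∀ f, IsLocalFactor M.degree (M.R l).ρ F f ↔
        f = P.map (algebraMap ℚ (Ω l)) := by
  classical
  by_cases hF : ∃ F, M.degree F = Multiplicative.ofAdd 1
  swap
  · exact ⟨0, fun l _ _ F h1 => absurd ⟨F, h1⟩ hF⟩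
  obtain ⟨F, hF⟩ := hF
  obtain ⟨P, hP⟩ := exists_factor (Λ := {l // t ∈ Y.disc l ∧ Y.val t ∉ badSet (Y.X l)})
    (Ω := fun l => Ω l.1) (V := fun l => (M.R l.1).V) (W := M.W) (M.one_lt hq) (m := (m : ℤ))
    (deg := M.degree) (ρ := fun l => (M.R l.1).ρ) (N := fun l => (M.R l.1).N)
    (fun l => (M.R l.1).isWeilRep) (fun l => M.pure hq h l.1 l.2.1 l.2.2) M.J_le M.J_index
    (fun l => M.J_acts l.1) (fun g hg => by
      obtain ⟨a, ha⟩ := hc g hg
      exact ⟨a, fun l => ha l.1⟩) hF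
  refine ⟨P, fun l h1 h2 F' hF' f => ?_⟩
  rw [← hP ⟨l, h1, h2⟩ f]
  exact ⟨fun h => h.congr (hF'.trans hF.symm), fun h => h.congr (hF.trans hF'.symm)⟩

/-- The local factors, over `ℤ`. -/
theorem factors_int (hq : 1 < q) (Y : Realizations Λ Ω n q r) (h : ∀ l, (Y.X l).StrataPure)
    (t : Y.Point) (m : ℕ) (M : Y.Dominated t m)
    (hc : M.HasRationalTraces) (hi : M.HasIntegralEigenvalues) :
    ∃ P : ℤ[X], ∀ l, t ∈ Y.disc l → Y.val t ∉ badSet (Y.X l) → ∀ F,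
      M.degree F = Multiplicative.ofAdd 1 → ∀ f, IsLocalFactor M.degree (M.R l).ρ F f ↔
        f = P.map (Int.castRingHom (Ω l)) := by
  classical
  by_cases hF : ∃ F, M.degree F = Multiplicative.ofAdd 1
  swap
  · exact ⟨0, fun l _ _ F h1 => absurd ⟨F, h1⟩ hF⟩
  obtain ⟨F, hF⟩ := hF
  obtain ⟨P, hP⟩ := exists_factor_int (Λ := {l // t ∈ Y.disc l ∧ Y.val t ∉ badSet (Y.X l)})
    (Ω := fun l => Ω l.1) (V := fun l => (M.R l.1).V) (W := M.W) (M.one_lt hq) (m := (m : ℤ))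
    (deg := M.degree) (ρ := fun l => (M.R l.1).ρ) (N := fun l => (M.R l.1).N)
    (fun l => (M.R l.1).isWeilRep) (fun l => M.pure hq h l.1 l.2.1 l.2.2) M.J_le M.J_index
    (fun l => M.J_acts l.1) (fun g hg => by
      obtain ⟨a, ha⟩ := hc g hg
      exact ⟨a, fun l => ha l.1⟩) hF
    (fun l α v hv hα => hi F (by rw [hF, toAdd_ofAdd]; exact one_pos) l.1 α v hv hα)
  refine ⟨P, fun l h1 h2 F' hF' f => ?_⟩
  rw [← hP ⟨l, h1, h2⟩ f]
  exact ⟨fun h => h.congr (hF'.trans hF.symm), fun h => h.congr (hF.trans hF'.symm)⟩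

end

end Run7.h307.LI
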