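import Pool.Agent.Run7.h307.WM2.Main
import Pool.Agent.Run7.h307.LI.FamDefs

/-!
# The exceptional set, and its independence of `ℓ`
-/

set_option autoImplicit false
set_option linter.unusedSectionVars false

namespace Run7.h307.LI

open Module Pool.Agent.Y143 Pool.Agent.N184.HP Pool.Agent.N184.HK Run7.h307.WM Run7.h307.WM2
open Run7.h615.WL

section

variable {Ω Ω' : Type} [Field Ω] [CharZero Ω] [Field Ω'] [CharZero Ω'] {q r : ℕ}
  {V V' : Type} [AddCommGroup V] [Module Ω V] [AddCommGroup V'] [Module Ω' V']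

lemma weil_map (σ : Ω ≃+* Ω') {w : ℤ} {e : Ω} (h : IsWeilNumber q w e) :
    IsWeilNumber q w (σ e) := by
  have h1 : minpoly ℚ (σ e) = minpoly ℚ e :=
    minpoly.algHom_eq (σ.toRingHom.toRatAlgHom) σ.injective e
  have h2 : IsAlgebraic ℚ (σ e) := by
    have := h.1.isIntegral.map (σ.toRingHom.toRatAlgHom)
    exact this.isAlgebraic
  exact ⟨h2, by rw [h1]; exact h.2⟩

variable {σ : Ω ≃+* Ω'} {Φ N₂ : Module.End Ω V} {N : Fin r → Module.End Ω V}
  {Φ' N₂' : Module.End Ω' V'} {N' : Fin r → Module.End Ω' V'} {θ : V ≃+ V'}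

lemma IsSemilinearIso.symm (h : IsSemilinearIso σ Φ N₂ N Φ' N₂' N' θ) :
    IsSemilinearIso σ.symm Φ' N₂' N' Φ N₂ N θ.symm where
  smul := by
    intro c x
    apply θ.injective
    rw [θ.apply_symm_apply, h.smul, θ.apply_symm_apply, σ.apply_symm_apply]
  frob := by
    intro x
    apply θ.injective
    rw [θ.apply_symm_apply, h.frob, θ.apply_symm_apply]
  mon := by
    intro x
    apply θ.injective
    rw [θ.apply_symm_apply, h.mon, θ.apply_symm_apply]
  cone := by
    intro j x
    apply θ.injective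
    rw [θ.apply_symm_apply, h.cone, θ.apply_symm_apply]

lemma IsSemilinearIso.mem_WS (h : IsSemilinearIso σ Φ N₂ N Φ' N₂' N' θ) {w : ℤ} {x : V}
    (hx : x ∈ WS q Φ w) : θ x ∈ WS q Φ' w := by
  let P : Submodule Ω V :=
    { carrier := {x | θ x ∈ WS q Φ' w}
      add_mem' := by
        intro x y hx hy
        show θ (x + y) ∈ WS q Φ' w
        rw [map_add]
        exact add_mem hx hy
      zero_mem' := by
        show θ 0 ∈ WS q Φ' w
        rw [map_zero]
        exact zero_mem _
      smul_mem' := by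
        intro c x hx
        show θ (c • x) ∈ WS q Φ' w
        rw [h.smul]
        exact Submodule.smul_mem _ _ hx }
  have h1 : WS q Φ w ≤ P := by
    unfold WS
    refine iSup₂_le fun e he => ?_
    intro x hx
    rw [Module.End.mem_maxGenEigenspace] at hx
    obtain ⟨k, hk⟩ := hx
    show θ x ∈ WS q Φ' w
    have h2 : θ x ∈ Φ'.maxGenEigenspace (σ e) := by
      rw [Module.End.mem_maxGenEigenspace]
      refine ⟨k, ?_⟩
      have h3 : ∀ (k : ℕ) (x : V), θ (((Φ - e • (1 : Module.End Ω V)) ^ k) x) =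
          ((Φ' - σ e • (1 : Module.End Ω' V')) ^ k) (θ x) := by
        intro k
        induction k with
        | zero => intro x; rfl
        | succ k ih =>
          intro x
          rw [pow_succ', pow_succ', Module.End.mul_apply, Module.End.mul_apply, ← ih]
          simp only [LinearMap.sub_apply, LinearMap.smul_apply, Module.End.one_apply, map_sub,
            h.frob, h.smul]
      rw [← h3, hk, map_zero]
    exact (le_iSup₂_of_le (σ e) (weil_map σ he) le_rfl : _ ≤ WS q Φ' w) h2
  exact h1 hx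

lemma IsSemilinearIso.op (h : IsSemilinearIso σ Φ N₂ N Φ' N₂' N' θ) (c : Fin r → ℚ) (b : ℕ)
    (x : V) : θ (((N₂ + ∑ j, (c j : Ω) • N j) ^ b) x) =
      ((N₂' + ∑ j, (c j : Ω') • N' j) ^ b) (θ x) := by
  have h1 : ∀ x, θ ((N₂ + ∑ j, (c j : Ω) • N j) x) = (N₂' + ∑ j, (c j : Ω') • N' j) (θ x) := by
    intro x
    simp only [LinearMap.add_apply, LinearMap.sum_apply, LinearMap.smul_apply, map_add, map_sum,
      h.mon, h.cone, h.smul, map_ratCast]
  induction b generalizing x with
  | zero => rfl
  | succ b ih =>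
    rw [pow_succ', pow_succ', Module.End.mul_apply, Module.End.mul_apply, h1, ih]

lemma IsSemilinearIso.good (h : IsSemilinearIso σ Φ N₂ N Φ' N₂' N' θ) {n : ℤ} {c : Fin r → ℚ}
    (hg : IsGood q n Φ N₂ N c) : IsGood q n Φ' N₂' N' c := by
  intro b
  refine ⟨?_, ?_, ?_⟩
  · intro x hx
    have h1 := (hg b).mapsTo (h.symm.mem_WS hx)
    have h2 := h.mem_WS h1
    rwa [h.op, θ.apply_symm_apply] at h2
  · intro x hx y hy hxy
    have h1 := (hg b).injOn (h.symm.mem_WS hx) (h.symm.mem_WS hy) (by
      apply θ.injective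
      show θ (((N₂ + ∑ j, (c j : Ω) • N j) ^ b) (θ.symm x)) =
        θ (((N₂ + ∑ j, (c j : Ω) • N j) ^ b) (θ.symm y))
      rw [h.op, h.op, θ.apply_symm_apply, θ.apply_symm_apply]
      exact hxy)
    exact θ.symm.injective h1
  · intro y hy
    obtain ⟨x, hx, hxy⟩ := (hg b).surjOn (h.symm.mem_WS hy)
    refine ⟨θ x, h.mem_WS hx, ?_⟩
    rw [← h.op]
    apply θ.symm.injective
    rw [θ.symm_apply_apply]
    exact hxy

end

section

variable {Ω : Type} [Field Ω] [CharZero Ω] {n q r : ℕ}

/-- The exceptional set of the family. -/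
def badSet (X : PolyFamily Ω n q r) : Set (Fin r → ℚ) :=
  {c | ∃ i ∈ Finset.range (2 * n + 1), ¬ IsGood q i (X.limit.frob i) (X.limit.mon i)
    (fun j => X.cone.N j i) c}

lemma badSet_subset {Ω' : Type} [Field Ω'] [CharZero Ω'] {X : PolyFamily Ω n q r}
    {X' : PolyFamily Ω' n q r} (h : SameLimit X X') : badSet X ⊆ badSet X' := by
  obtain ⟨σ, hσ⟩ := h
  rintro c ⟨i, hi, hc⟩
  obtain ⟨θ, hθ⟩ := hσ i
  exact ⟨i, hi, fun hg => hc (hθ.symm.good hg)⟩

lemma badSet_eq {Ω' : Type} [Field Ω'] [CharZero Ω'] {X : PolyFamily Ω n q r}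
    {X' : PolyFamily Ω' n q r} (h : SameLimit X X') : badSet X = badSet X' := by
  refine (badSet_subset h).antisymm (badSet_subset ?_)
  obtain ⟨σ, hσ⟩ := h
  refine ⟨σ.symm, fun i => ?_⟩
  obtain ⟨θ, hθ⟩ := hσ i
  exact ⟨θ.symm, hθ.symm⟩

variable [IsAlgClosed Ω]

/-- **The fibres near a normal crossing fibre are mw pure**, with an explicit exceptional set. -/
theorem main' (hq : 1 < q) (X : PolyFamily Ω n q r) (h : X.StrataPure) :
    (∃ P : MvPolynomial (Fin r) ℚ, P ≠ 0 ∧ ∀ c ∈ badSet X, MvPolynomial.eval c P = 0) ∧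
      (∀ b : Fin r → ℕ, (∀ j, 0 < b j) → {s : ℚ | (fun j => s * b j) ∈ badSet X}.Finite) ∧
      ∀ t : X.fibres.Point, X.fibres.valuation t ∉ badSet X →
        ∀ i : ℕ, IsMWPure (q ^ X.fibres.deg t) i (X.fibres.frob t i) (X.fibres.mon t i) := by
  have hfin := fun i => (X.limitSpace i).finite
  have hyp := fun i => Degeneration.hyp (X := X.toDegeneration) hq h i
  refine ⟨?_, ?_, ?_⟩
  · choose P hP0 hP using fun i => generic_multi (hyp i)
      (fun j => X.cone.N j i) (fun j => (X.cone.a j : Ω)) (X.isCone.sum i)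
      (fun j => X.isCone.N_frob j i)
    choose Q hQ0 hQ using fun i => exists_rat (hP0 i)
    refine ⟨∏ i ∈ Finset.range (2 * n + 1), Q i, Finset.prod_ne_zero_iff.2 fun i _ => hQ0 i, ?_⟩
    rintro c ⟨i, hi, hc⟩
    rw [map_prod]
    apply Finset.prod_eq_zero hi
    by_contra h0
    exact hc (hP i _ (hQ i c h0))
  · intro b hb
    have key : ∀ i : ℕ, {s : ℚ | ¬ IsGood q i (X.limit.frob i) (X.limit.mon i)
        (fun j => X.cone.N j i) (fun j => s * b j)}.Finite := by
      intro i
      have H : Hyp q i (X.limit.frob i) (∑ j, (b j : Ω) • X.cone.N j i) (X.limit.mon i)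
          (fun j => X.limit.W i (i + j)) :=
        { hq := hq
          mon := X.isCone.monodromy b hb i
          stab := (hyp i).stab
          stab2 := (hyp i).stab2
          comm := by
            intro x
            simp only [LinearMap.sum_apply, LinearMap.smul_apply, map_sum, map_smul,
              X.isCone.N_mon]
          t1 := by
            intro x
            have := sum_comm_frob (hyp i).t2 (fun j => X.isCone.N_frob j i) 0 (fun j => (b j : Ω)) x
            rwa [zero_smul, zero_add] at this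
          t2 := (hyp i).t2
          pure := (hyp i).pure }
      obtain ⟨S, hS, hbij⟩ := H.generic_all
      have hfin' : {s : ℚ | (s : Ω) ∈ S}.Finite := hS.preimage (Rat.cast_injective.injOn)
      refine hfin'.subset ?_
      intro s hs
      by_contra h0
      apply hs
      intro k
      have h1 := hbij (s : Ω) h0 k
      have h2 : X.limit.mon i + (s : Ω) • ∑ j, (b j : Ω) • X.cone.N j i =
          X.limit.mon i + ∑ j, ((s * b j : ℚ) : Ω) • X.cone.N j i := by
        rw [Finset.smul_sum]
        congr 1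
        refine Finset.sum_congr rfl fun j _ => ?_
        rw [smul_smul]
        push_cast
        rfl
      rwa [h2] at h1
    refine (Set.Finite.biUnion (Finset.finite_toSet (Finset.range (2 * n + 1)))
      fun i _ => key i).subset ?_
    rintro s ⟨i, hi, hc⟩
    exact Set.mem_biUnion (Finset.mem_coe.2 hi) hc
  · intro t ht i
    have hX := X.locallyConstant
    refine pure_transport (X.fibres.θ t i) ?_ (hX.frob_θ t i) (hX.mon_θ t i)
    by_cases hi : i ∈ Finset.range (2 * n + 1)
    · apply pure_of_good (hyp i) (fun j => X.cone.N j i) (fun j => X.isCone.N_frob j i)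
        (Degeneration.roots hq h i) (X.fibres.ram t) (X.fibres.val t) (X.fibres.deg t)
        (hX.ram_pos t)
      by_contra h0
      exact ht ⟨i, hi, h0⟩
    · have h0 : ∀ v : X.limit.V i, v = 0 :=
        Degeneration.V_zero (X := X.toDegeneration) (by simpa using hi)
      have hall : ∀ (P : Submodule Ω (X.limit.V i)) (x : X.limit.V i), x ∈ P := by
        intro P x
        rw [h0 x]
        exact zero_mem _
      refine ⟨fun _ => ⊥, ⟨fun _ _ _ => le_rfl, ⟨0, rfl⟩, ⟨0, ?_⟩, fun _ _ _ => hall _ _,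
        fun _ _ _ _ => hall _ _, fun _ y _ => ⟨y, hall _ _, hall _ _⟩⟩, fun _ _ _ => hall _ _,
        fun a α x _ hx _ => absurd (hall _ _) hx⟩
      rw [eq_comm, eq_bot_iff]
      intro x _
      exact hall _ _

end

end Run7.h307.LI
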