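import Pool.Agent.Run7.h307.LI.Split
import Pool.Agent.Run7.h615.WL.WeilDefs

/-!
# The pieces of the monodromy filtration are cut out by rational polynomials in a Frobenius
-/

set_option autoImplicit false

namespace Run7.h307.LI

open Polynomial Module Pool.Agent.Y143 Run7.h615.WL

section

variable {Ω : Type} [Field Ω] [CharZero Ω] [IsAlgClosed Ω]

/-- The value of the rational polynomial `P` at the endomorphism `g`. -/
noncomputable def pe {U : Type} [AddCommGroup U] [Module Ω U] (g : Module.End Ω U) (P : ℚ[X]) :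
    Module.End Ω U := aeval g (P.map (algebraMap ℚ Ω))

lemma pe_mul {U : Type} [AddCommGroup U] [Module Ω U] (g : Module.End Ω U) (P Q : ℚ[X]) :
    pe g (P * Q) = pe g P * pe g Q := by
  unfold pe
  rw [Polynomial.map_mul, map_mul]

lemma pe_add {U : Type} [AddCommGroup U] [Module Ω U] (g : Module.End Ω U) (P Q : ℚ[X]) :
    pe g (P + Q) = pe g P + pe g Q := by
  unfold pe
  rw [Polynomial.map_add, map_add]

lemma pe_one {U : Type} [AddCommGroup U] [Module Ω U] (g : Module.End Ω U) :
    pe g 1 = 1 := by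
  unfold pe
  rw [Polynomial.map_one, map_one]

lemma pe_X {U : Type} [AddCommGroup U] [Module Ω U] (g : Module.End Ω U) :
    pe g X = g := by
  unfold pe
  rw [Polynomial.map_X, aeval_X]

lemma pe_monomial {U : Type} [AddCommGroup U] [Module Ω U] (g : Module.End Ω U) (k : ℕ) (c : ℚ) :
    pe g (monomial k c) = (c : Ω) • g ^ k := by
  unfold pe
  rw [Polynomial.map_monomial, aeval_monomial, Algebra.algebraMap_eq_smul_one, smul_mul_assoc,
    one_mul]
  simp

/-- Intertwining operators. -/
lemma pe_intertwine {U U' : Type} [AddCommGroup U] [Module Ω U] [AddCommGroup U'] [Module Ω U']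
    {g : Module.End Ω U} {g' : Module.End Ω U'} (T : U →ₗ[Ω] U') (h : ∀ x, T (g x) = g' (T x))
    (P : ℚ[X]) (x : U) : T (pe g P x) = pe g' P (T x) := by
  induction P using Polynomial.induction_on' with
  | add p r hp hr => rw [pe_add, pe_add, LinearMap.add_apply, LinearMap.add_apply, map_add, hp, hr]
  | monomial k c =>
    rw [pe_monomial, pe_monomial, LinearMap.smul_apply, LinearMap.smul_apply, map_smul]
    congr 1
    clear c
    induction k with
    | zero => rfl
    | succ k ih => rw [pow_succ', pow_succ', Module.End.mul_apply, Module.End.mul_apply, h, ih]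

lemma exists_eigen {U : Type} [AddCommGroup U] [Module Ω U] [FiniteDimensional Ω U]
    (f : Module.End Ω U) (P : ℚ[X]) (hP : ¬ Function.Injective (pe f P)) :
    ∃ β : Ω, aeval β P = 0 ∧ ∃ y : U, y ≠ 0 ∧ f y = β • y := by
  have hU : Nontrivial U := by
    by_contra h0
    rw [not_nontrivial_iff_subsingleton] at h0
    exact hP (Function.injective_of_subsingleton _)
  have hne : (spectrum Ω f).Nonempty := spectrum.nonempty_of_isAlgClosed_of_finiteDimensional Ω f
  have h0 : (0 : Ω) ∈ spectrum Ω (aeval f (P.map (algebraMap ℚ Ω))) := by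
    rw [spectrum.zero_mem_iff]
    intro hu
    apply hP
    rw [Module.End.isUnit_iff] at hu
    exact hu.1
  rw [spectrum.map_polynomial_aeval_of_nonempty f _ hne] at h0
  obtain ⟨β, hβ, hβ0⟩ := h0
  have hev := Module.End.hasEigenvalue_iff_mem_spectrum.2 hβ
  obtain ⟨y, hy⟩ := hev.exists_hasEigenvector
  refine ⟨β, ?_, y, hy.2, hy.apply_eq_smul⟩
  simpa [eval_map_algebraMap] using hβ0

variable {V : Type} [AddCommGroup V] [Module Ω V]

lemma exists_level {M : ℤ → Submodule Ω V} (hmono : Monotone M) {a s : ℤ} {y : V}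
    (ha : y ∉ M a) (hs : y ∈ M s) : ∃ s', a < s' ∧ s' ≤ s ∧ y ∈ M s' ∧ y ∉ M (s' - 1) := by
  classical
  have has : a < s := by
    by_contra h0
    exact ha (hmono (not_lt.1 h0) hs)
  obtain ⟨k, hk⟩ := Int.eq_ofNat_of_zero_le (show 0 ≤ s - a by omega)
  have hex : ∃ j : ℕ, y ∈ M (a + j) := ⟨k, by
    have : a + (k : ℤ) = s := by rw [← hk]; ring
    rw [this]
    exact hs⟩
  have h1 := Nat.find_spec hex
  have hpos : 0 < Nat.find hex := by
    rw [Nat.pos_iff_ne_zero]
    intro h0
    rw [h0] at h1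
    simp only [Nat.cast_zero, add_zero] at h1
    exact ha h1
  refine ⟨a + Nat.find hex, by omega, ?_, h1, ?_⟩
  · have : Nat.find hex ≤ k := Nat.find_min' hex (by
      have : a + (k : ℤ) = s := by rw [← hk]; ring
      rw [this]
      exact hs)
    omega
  · intro h2
    have h3 := Nat.find_min hex (m := Nat.find hex - 1) (by omega)
    apply h3
    have : a + ((Nat.find hex - 1 : ℕ) : ℤ) = a + (Nat.find hex : ℤ) - 1 := by
      push_cast [Nat.cast_sub hpos]
      ring
    rw [this]
    exact h2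

/-- The hypotheses for one element `g` of degree `d > 0`. -/
structure Fil (q : ℕ) (m d : ℤ) (g : Module.End Ω V) (M : ℤ → Submodule Ω V) : Prop where
  hq : 1 < q
  hd : 0 < d
  mono : Monotone M
  bot : ∃ a, M a = ⊥
  top : ∃ a, M a = ⊤
  stab : ∀ s x, x ∈ M s → g x ∈ M s
  weil : ∀ s, EigenvaluesWeil q ((m + s) * d) g (M s) (M (s - 1))

/-- The absolute value `q ^ ((m + s) d / 2)`. -/
noncomputable def absv (q : ℕ) (m d s : ℤ) : ℝ := (q : ℝ) ^ ((((m + s) * d : ℤ) : ℝ) / 2)

lemma absv_lt {q : ℕ} (hq : 1 < q) {m d s s' : ℤ} (hd : 0 < d) (h : s < s') :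
    absv q m d s < absv q m d s' := by
  unfold absv
  apply Real.rpow_lt_rpow_of_exponent_lt (by exact_mod_cast hq)
  have : ((m + s) * d : ℤ) < (m + s') * d := mul_lt_mul_of_pos_right (by omega) hd
  have : (((m + s) * d : ℤ) : ℝ) < (((m + s') * d : ℤ) : ℝ) := by exact_mod_cast this
  linarith

lemma absv_le {q : ℕ} (hq : 1 < q) {m d s s' : ℤ} (hd : 0 < d) (h : s ≤ s') :
    absv q m d s ≤ absv q m d s' := by
  rcases h.lt_or_eq with h | h
  · exact (absv_lt hq hd h).le
  · rw [h]

lemma pe_mem {g : Module.End Ω V} {S : Submodule Ω V} (hS : ∀ x ∈ S, g x ∈ S) (P : ℚ[X])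
    {x : V} (hx : x ∈ S) : pe g P x ∈ S := by
  have h1 := pe_intertwine (g := g.restrict hS) (g' := g) S.subtype (fun u => rfl) P ⟨x, hx⟩
  have h2 : S.subtype ⟨x, hx⟩ = x := rfl
  rw [h2] at h1
  rw [← h1]
  exact (pe (g.restrict hS) P ⟨x, hx⟩).2

variable [FiniteDimensional Ω V]

lemma Fil.exists_weil {q : ℕ} {m d : ℤ} {g : Module.End Ω V} {M : ℤ → Submodule Ω V}
    (H : Fil q m d g M) {β : Ω} {y : V} (hy : y ≠ 0) (h : g y = β • y) :
    ∃ s, IsWeilNumber q ((m + s) * d) β := by
  obtain ⟨a, ha⟩ := H.bot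
  obtain ⟨b, hb⟩ := H.top
  obtain ⟨s, -, -, h1, h2⟩ := exists_level (a := a) (s := b) H.mono
    (by rw [ha]; simpa using hy) (by rw [hb]; trivial)
  refine ⟨s, H.weil s β y h1 h2 ?_⟩
  rw [h, sub_self]
  exact zero_mem _

theorem Fil.kill {q : ℕ} {m d : ℤ} {g : Module.End Ω V} {M : ℤ → Submodule Ω V}
    (H : Fil q m d g M) {A B : ℚ[X]} (hAB : pe g (A * B) = 0) (s : ℤ)
    (hA : ∀ z : ℂ, aeval z A = 0 → ‖z‖ ≤ absv q m d s)
    (hB : ∀ z : ℂ, aeval z B = 0 → absv q m d s < ‖z‖) :
    (∀ x ∈ M s, pe g A x = 0) ∧ ∀ x, pe g B x ∈ M s := by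
  have hprod : ∀ x, pe g A (pe g B x) = 0 := by
    intro x
    rw [← Module.End.mul_apply, ← pe_mul, hAB, LinearMap.zero_apply]
  have hprod' : ∀ x, pe g B (pe g A x) = 0 := by
    intro x
    rw [← Module.End.mul_apply, ← pe_mul, mul_comm B A, hAB, LinearMap.zero_apply]
  constructor
  · -- `B(g)` is injective on `M s`
    have hinj : ∀ x ∈ M s, pe g B x = 0 → x = 0 := by
      by_contra h0
      push Not at h0
      obtain ⟨x, hx, hx0, hxne⟩ := h0
      have hst : ∀ x ∈ M s, g x ∈ M s := H.stab s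
      obtain ⟨β, hβ, ⟨y, hy⟩, hy0, hyβ⟩ := exists_eigen (g.restrict hst) B (by
        intro hi
        apply hxne
        have h1 : ∀ u : M s, ((pe (g.restrict hst) B u : M s) : V) = pe g B (u : V) := fun u =>
          pe_intertwine (M s).subtype (fun u => rfl) B u
        have h2 : pe (g.restrict hst) B ⟨x, hx⟩ = 0 := Subtype.ext (by rw [h1]; exact hx0)
        have h3 := hi (h2.trans (map_zero _).symm)
        exact congrArg Subtype.val h3)
      have hy1 : g y = β • y := congrArg Subtype.val hyβ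
      have hyne : y ≠ 0 := fun h0 => hy0 (Subtype.ext h0)
      obtain ⟨a, ha⟩ := H.bot
      obtain ⟨s', -, hs', h1, h2⟩ := exists_level (a := a) (s := s) H.mono
        (by rw [ha]; simpa using hyne) hy
      have hw := H.weil s' β y h1 h2 (by rw [hy1, sub_self]; exact zero_mem _)
      obtain ⟨z, hz, hzn⟩ := exists_complex_root hβ hw
      have h3 := hB z hz
      rw [hzn] at h3
      exact absurd (absv_le H.hq H.hd hs') (not_le.2 h3)
    intro x hx
    exact hinj _ (pe_mem (H.stab s) A hx) (hprod' x)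
  · -- `A(g)` is injective on `V / M s`
    have hst : M s ≤ (M s).comap g := fun x hx => H.stab s x hx
    have hinj : ∀ x, pe g A x ∈ M s → x ∈ M s := by
      by_contra h0
      push Not at h0
      obtain ⟨x, hx, hxne⟩ := h0
      have h1 : ∀ u : V, pe ((M s).mapQ (M s) g hst) A ((M s).mkQ u) = (M s).mkQ (pe g A u) :=
        fun u => (pe_intertwine (M s).mkQ (fun u => rfl) A u).symm
      obtain ⟨β, hβ, y', hy0, hyβ⟩ := exists_eigen ((M s).mapQ (M s) g hst) A (by
        intro hi
        apply hxne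
        have h2 : pe ((M s).mapQ (M s) g hst) A ((M s).mkQ x) = 0 := by
          rw [h1]
          exact (Submodule.Quotient.mk_eq_zero _).2 hx
        have h3 := hi (h2.trans (map_zero _).symm)
        exact (Submodule.Quotient.mk_eq_zero _).1 h3)
      obtain ⟨y, rfl⟩ := (M s).mkQ_surjective y'
      have hys : y ∉ M s := fun h => hy0 ((Submodule.Quotient.mk_eq_zero _).2 h)
      have hyβ' : g y - β • y ∈ M s := by
        apply (Submodule.Quotient.mk_eq_zero (M s)).1
        show (M s).mkQ (g y - β • y) = 0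
        rw [map_sub, map_smul, ← hyβ]
        exact sub_self _
      obtain ⟨b, hb⟩ := H.top
      obtain ⟨s', hs', -, h3, h4⟩ := exists_level (a := s) (s := b) H.mono hys
        (by rw [hb]; trivial)
      have hw := H.weil s' β y h3 h4 (H.mono (by omega) hyβ')
      obtain ⟨z, hz, hzn⟩ := exists_complex_root hβ hw
      have h5 := hA z hz
      rw [hzn] at h5
      exact absurd (absv_lt H.hq H.hd hs') (not_lt.2 h5)
    intro x
    apply hinj
    rw [hprod]
    exact zero_mem _

end

end Run7.h307.LI
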