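import Pool.Agent.Run7.h307.LI.Fam
import Pool.Agent.Run7.h307.LI.Defs
import Pool.Agent.R401.Tr4

/-!
# Local factors do not depend on `ℓ`
-/

set_option autoImplicit false
set_option linter.unusedSectionVars false

namespace Run7.h307.LI

open Polynomial Module Pool.Agent.Y143 Run7.h615.WL

section one

variable {Ω : Type} [Field Ω] [CharZero Ω] {V : Type} [AddCommGroup V] [Module Ω V]
  [FiniteDimensional Ω V] {W : Type} [Group W]

lemma expAt_of_ker {N : Module.End Ω V} (c : Ω) {x : V} (hx : N x = 0) : expAt N c x = x := by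
  unfold expAt
  rw [Finset.sum_range_succ', LinearMap.add_apply, LinearMap.sum_apply]
  have h1 : ∀ k : ℕ, (N ^ (k + 1)) x = 0 := fun k => by
    rw [pow_succ, Module.End.mul_apply, hx, map_zero]
  simp [h1]

lemma ker_of_expAt {N : Module.End Ω V} (hN : IsNilpotent N) {c : Ω} (hc : c ≠ 0) {x : V}
    (hx : expAt N c x = x) : N x = 0 := by
  classical
  by_contra h0
  have hex : ∃ k : ℕ, (N ^ k) x = 0 := by
    obtain ⟨k, hk⟩ := hN
    exact ⟨k, by rw [hk, LinearMap.zero_apply]⟩
  have hfr : 0 < finrank Ω V := by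
    rw [Module.finrank_pos_iff_exists_ne_zero]
    exact ⟨N x, h0⟩
  obtain ⟨k, hk⟩ : ∃ k, Nat.find hex = k := ⟨_, rfl⟩
  have hk0 : (N ^ k) x = 0 := by rw [← hk]; exact Nat.find_spec hex
  have hk2 : 2 ≤ k := by
    by_contra h1
    have : k = 0 ∨ k = 1 := by omega
    rcases this with rfl | rfl
    · rw [pow_zero, Module.End.one_apply] at hk0
      exact h0 (by rw [hk0, map_zero])
    · rw [pow_one] at hk0
      exact h0 hk0
  have hmin : (N ^ (k - 1)) x ≠ 0 := Nat.find_min hex (by omega)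
  apply hmin
  have h1 : (N ^ (k - 2)) (expAt N c x - x) = 0 := by rw [hx, sub_self, map_zero]
  have h2 : expAt N c x - x = ∑ i ∈ Finset.range (finrank Ω V),
      (((i + 1).factorial : Ω)⁻¹ * c ^ (i + 1)) • (N ^ (i + 1)) x := by
    unfold expAt
    rw [Finset.sum_range_succ', LinearMap.add_apply, LinearMap.sum_apply]
    simp
  rw [h2, map_sum, Finset.sum_eq_single 0] at h1
  · simp only [zero_add, Nat.factorial_one, Nat.cast_one, inv_one, one_mul, pow_one, map_smul,
      smul_eq_zero, hc, false_or] at h1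
    rw [← Module.End.mul_apply, ← pow_succ] at h1
    rwa [show k - 2 + 1 = k - 1 by omega] at h1
  · intro i _ hi
    rw [map_smul, ← Module.End.mul_apply, ← pow_add]
    have : (N ^ (k - 2 + (i + 1))) x = 0 := by
      rw [show k - 2 + (i + 1) = (i - 1) + k by omega, pow_add, Module.End.mul_apply, hk0, map_zero]
    rw [this, smul_zero]
  · intro h3
    exact absurd (Finset.mem_range.2 hfr) h3

variable {deg : W →* Multiplicative ℤ} {ρ : Representation Ω W V} {N : Module.End Ω V}
  {J : Subgroup W}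

lemma inv_le_ker (hJ : J ≤ deg.ker) (hN : IsNilpotent N) (ht : ActsByTame ρ N J) {x : V}
    (hx : x ∈ invariants deg ρ) : N x = 0 := by
  obtain ⟨t, ht1, ht⟩ := ht
  obtain ⟨j, hj⟩ : ∃ j, t j ≠ 1 := by
    by_contra h0
    push Not at h0
    exact ht1 (MonoidHom.ext h0)
  have h1 : ρ j x = x := hx j (hJ j.2)
  rw [ht j] at h1
  exact ker_of_expAt hN (fun h2 => hj (by
    apply Multiplicative.toAdd.injective
    rw [h2, toAdd_one])) h1

lemma act_ker (ht : ActsByTame ρ N J) {j : W} (hj : j ∈ J) {x : V} (hx : N x = 0) :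
    ρ j x = x := by
  obtain ⟨t, -, ht⟩ := ht
  have := ht ⟨j, hj⟩
  have h1 : ρ j = expAt N (Multiplicative.toAdd (t ⟨j, hj⟩)) := this
  rw [h1]
  exact expAt_of_ker _ hx

/-- The mean value over the inertia group. -/
noncomputable def avg (deg : W →* Multiplicative ℤ) (ρ : Representation Ω W V) (J : Subgroup W)
    [Fintype (deg.ker ⧸ J.subgroupOf deg.ker)] : Module.End Ω V :=
  ((Fintype.card (deg.ker ⧸ J.subgroupOf deg.ker) : Ω)⁻¹) •
    ∑ c : deg.ker ⧸ J.subgroupOf deg.ker, ρ ((c.out : deg.ker) : W)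

variable [Fintype (deg.ker ⧸ J.subgroupOf deg.ker)]

lemma act_out (ht : ActsByTame ρ N J) {a b : deg.ker}
    (h : (a : deg.ker ⧸ J.subgroupOf deg.ker) = b) {x : V} (hx : N x = 0) :
    ρ (a : W) x = ρ (b : W) x := by
  have h1 := QuotientGroup.eq.1 h
  rw [Subgroup.mem_subgroupOf] at h1
  have h3 : (b : W) = (a : W) * ((a⁻¹ * b : deg.ker) : W) := by
    rw [Subgroup.coe_mul, Subgroup.coe_inv, mul_inv_cancel_left]
  rw [h3, map_mul, Module.End.mul_apply, act_ker ht h1 hx]

lemma avg_mem (ht : ActsByTame ρ N J) {x : V}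
    (hx : N x = 0) : avg deg ρ J x ∈ invariants deg ρ := by
  intro τ hτ
  unfold avg
  rw [LinearMap.smul_apply, map_smul, LinearMap.sum_apply, map_sum]
  congr 1
  let t : deg.ker := ⟨τ, hτ⟩
  conv_rhs => rw [← Equiv.sum_comp (MulAction.toPerm t :
    Equiv.Perm (deg.ker ⧸ J.subgroupOf deg.ker))]
  refine Finset.sum_congr rfl fun c _ => ?_
  rw [← Module.End.mul_apply, ← map_mul]
  have h1 : τ * ((c.out : deg.ker) : W) = ((t * c.out : deg.ker) : W) := rfl
  rw [h1]
  apply act_out ht _ hx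
  rw [MulAction.toPerm_apply]
  have h2 : (((t • c).out : deg.ker) : deg.ker ⧸ J.subgroupOf deg.ker) = t • c := Quotient.out_eq _
  rw [h2]
  conv_rhs => rw [← Quotient.out_eq c]
  rfl

lemma avg_fix {x : V} (hx : x ∈ invariants deg ρ) : avg deg ρ J x = x := by
  unfold avg
  rw [LinearMap.smul_apply, LinearMap.sum_apply]
  have h1 : ∀ c : deg.ker ⧸ J.subgroupOf deg.ker, ρ ((c.out : deg.ker) : W) x = x := by
    intro c
    exact hx _ c.out.2
  rw [Finset.sum_congr rfl fun c _ => h1 c, Finset.sum_const, Finset.card_univ,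
    ← Nat.cast_smul_eq_nsmul Ω, smul_smul, inv_mul_cancel₀, one_smul]
  exact_mod_cast Fintype.card_ne_zero

lemma inv_stable (F : W) {x : V} (hx : x ∈ invariants deg ρ) : ρ F x ∈ invariants deg ρ := by
  intro g hg
  have h1 : g * F = F * (F⁻¹ * g * F) := by group
  rw [← Module.End.mul_apply, ← map_mul, h1, map_mul, Module.End.mul_apply]
  congr 1
  apply hx
  have := (MonoidHom.normal_ker deg).conj_mem g hg F⁻¹
  rwa [inv_inv] at this

/-- The traces of the powers of the Frobenius on the invariants. -/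
theorem trace_inv (hJ : J ≤ deg.ker) (hN : IsNilpotent N) (ht : ActsByTame ρ N J) {q : ℕ}
    (htw : IsTwisted q deg ρ N) {F : W} {T : W → Ω}
    (hT : ∀ g (hg : ∀ x ∈ LinearMap.ker N, ρ g x ∈ LinearMap.ker N),
      0 < Multiplicative.toAdd (deg g) →
      LinearMap.trace Ω (LinearMap.ker N) ((ρ g).restrict hg) = T g)
    (hF : deg F = Multiplicative.ofAdd 1) {m : ℕ} (b : Basis (Fin m) Ω (invariants deg ρ))
    (A : Matrix (Fin m) (Fin m) Ω) (hA : ∀ j, ρ F (b j : V) = ∑ i, A i j • (b i : V)) (k : ℕ) :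
    (A ^ (k + 1)).trace = (Fintype.card (deg.ker ⧸ J.subgroupOf deg.ker) : Ω)⁻¹ *
      ∑ c : deg.ker ⧸ J.subgroupOf deg.ker, T (F ^ (k + 1) * ((c.out : deg.ker) : W)) := by
  classical
  have hst : ∀ g, ∀ x ∈ LinearMap.ker N, ρ g x ∈ LinearMap.ker N := by
    intro g x hx
    rw [LinearMap.mem_ker] at hx ⊢
    rw [htw, hx, map_zero, smul_zero]
  obtain ⟨π0, hπ0⟩ := (LinearMap.ker N).subtype.exists_leftInverse_of_injective
    (LinearMap.ker N).ker_subtype
  let π : Module.End Ω V := (LinearMap.ker N).subtype ∘ₗ π0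
  have hπ1 : ∀ x, π x ∈ LinearMap.ker N := fun x => (π0 x).2
  have hπ2 : ∀ x ∈ LinearMap.ker N, π x = x := fun x hx =>
    congrArg Subtype.val (LinearMap.congr_fun hπ0 ⟨x, hx⟩)
  have hinv : ∀ F : W, ∀ x ∈ invariants deg ρ, ρ F x ∈ invariants deg ρ := fun F x hx =>
    inv_stable F hx
  have h1 : LinearMap.trace Ω (invariants deg ρ) ((ρ (F ^ (k + 1))).restrict (hinv _)) =
      LinearMap.trace Ω V (ρ (F ^ (k + 1)) * (avg deg ρ J * π)) := by
    rw [trace_proj]
    · intro x
      exact avg_mem ht (hπ1 x)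
    · intro x hx
      rw [Module.End.mul_apply, hπ2 x (inv_le_ker hJ hN ht hx), avg_fix hx]
  have h2 : LinearMap.trace Ω (invariants deg ρ) ((ρ (F ^ (k + 1))).restrict (hinv _)) =
      (A ^ (k + 1)).trace := by
    have h3 : LinearMap.toMatrix b b ((ρ F).restrict (hinv F)) = A := by
      have h4 : (ρ F).restrict (hinv F) = Matrix.toLin b b A := by
        refine b.ext fun j => Subtype.ext ?_
        rw [Matrix.toLin_self]
        show ρ F (b j : V) = _
        rw [hA j]
        simp
      rw [h4, LinearMap.toMatrix_toLin]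
    have h5 : ∀ n : ℕ, (ρ (F ^ n)).restrict (hinv _) = ((ρ F).restrict (hinv F)) ^ n := by
      intro n
      induction n with
      | zero =>
        apply LinearMap.ext
        intro x
        apply Subtype.ext
        show ρ (F ^ 0) x = x
        rw [pow_zero, map_one, Module.End.one_apply]
      | succ n ih =>
        rw [pow_succ' ((ρ F).restrict (hinv F)), ← ih]
        apply LinearMap.ext
        intro x
        apply Subtype.ext
        show ρ (F ^ (n + 1)) x = ρ F (ρ (F ^ n) x)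
        rw [pow_succ', map_mul, Module.End.mul_apply]
    rw [h5, LinearMap.trace_eq_matrix_trace Ω b, ← LinearMap.toMatrix_pow, h3]
  rw [← h2, h1]
  unfold avg
  rw [smul_mul_assoc, mul_smul_comm, map_smul, smul_eq_mul, Finset.sum_mul, Finset.mul_sum, map_sum]
  congr 1
  refine Finset.sum_congr rfl fun c _ => ?_
  rw [← mul_assoc, ← map_mul, trace_proj (hst _) hπ1 hπ2]
  apply hT
  have h6 : deg ((c.out : deg.ker) : W) = 1 := c.out.2
  rw [map_mul, map_pow, hF, h6, mul_one, toAdd_pow, toAdd_ofAdd]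
  simp

end one

end Run7.h307.LI
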