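import Pool.Agent.Y143.Defs

/-!
# Splitting a rational polynomial according to the absolute values of its roots
-/

set_option autoImplicit false

namespace Run7.h307.LI

open Polynomial Pool.Agent.Y143

lemma exists_split (T : ℝ) (χ : ℚ[X]) (hχ : χ ≠ 0)
    (h : ∀ f : ℚ[X], Irreducible f → f ∣ χ → (∀ z : ℂ, aeval z f = 0 → ‖z‖ ≤ T) ∨
      ∀ z : ℂ, aeval z f = 0 → T < ‖z‖) :
    ∃ A B : ℚ[X], χ = A * B ∧ (∀ z : ℂ, aeval z A = 0 → ‖z‖ ≤ T) ∧
      ∀ z : ℂ, aeval z B = 0 → T < ‖z‖ := by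
  induction χ using WfDvdMonoid.induction_on_irreducible with
  | zero => exact absurd rfl hχ
  | unit u hu =>
    have h0 : ∀ z : ℂ, aeval z u ≠ 0 := fun z => (hu.map (aeval z)).ne_zero
    refine ⟨1, u, by rw [one_mul], ?_, ?_⟩
    · intro z hz
      rw [map_one] at hz
      exact absurd hz one_ne_zero
    · intro z hz
      exact absurd hz (h0 z)
  | mul a i ha hi ih =>
    obtain ⟨A, B, hAB, hA, hB⟩ := ih ha fun f hf hfa => h f hf (hfa.trans (dvd_mul_left a i))
    rcases h i hi (dvd_mul_right i a) with h1 | h1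
    · refine ⟨i * A, B, by rw [hAB, mul_assoc], ?_, hB⟩
      intro z hz
      rw [map_mul] at hz
      rcases mul_eq_zero.1 hz with h2 | h2
      · exact h1 z h2
      · exact hA z h2
    · refine ⟨A, i * B, by rw [hAB]; ring, hA, ?_⟩
      intro z hz
      rw [map_mul] at hz
      rcases mul_eq_zero.1 hz with h2 | h2
      · exact h1 z h2
      · exact hB z h2

lemma isCoprime_of_split {T : ℝ} {A B : ℚ[X]} (hA : ∀ z : ℂ, aeval z A = 0 → ‖z‖ ≤ T)
    (hB : ∀ z : ℂ, aeval z B = 0 → T < ‖z‖) : IsCoprime A B := by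
  rw [isCoprime_iff_aeval_ne_zero_of_isAlgClosed (k := ℚ) ℂ]
  intro z
  by_contra h0
  push Not at h0
  exact absurd (hA z h0.1) (not_le.2 (hB z h0.2))

/-- A root which is a Weil number gives a complex root with the right absolute value. -/
lemma exists_complex_root {Ω : Type} [Field Ω] [CharZero Ω] {q : ℕ} {w : ℤ} {β : Ω} {B : ℚ[X]}
    (hβ : aeval β B = 0) (hw : IsWeilNumber q w β) :
    ∃ z : ℂ, aeval z B = 0 ∧ ‖z‖ = (q : ℝ) ^ ((w : ℝ) / 2) := by
  have hd : 0 < (minpoly ℚ β).degree := minpoly.degree_pos hw.1.isIntegral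
  obtain ⟨z, hz⟩ := IsAlgClosed.exists_aeval_eq_zero ℂ (minpoly ℚ β) hd.ne'
  obtain ⟨C, hC⟩ := minpoly.dvd ℚ β hβ
  exact ⟨z, by rw [hC, map_mul, hz, zero_mul], hw.2 z hz⟩

/-- All complex roots of an irreducible polynomial with a root which is a Weil number have the
same absolute value. -/
lemma norm_of_irreducible {Ω : Type} [Field Ω] [CharZero Ω] {q : ℕ} {w : ℤ} {β : Ω} {f : ℚ[X]}
    (hf : Irreducible f) (hβ : aeval β f = 0) (hw : IsWeilNumber q w β) {z : ℂ}
    (hz : aeval z f = 0) : ‖z‖ = (q : ℝ) ^ ((w : ℝ) / 2) := by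
  apply hw.2
  have h1 : minpoly ℚ β ∣ f := minpoly.dvd ℚ β hβ
  have h2 : Irreducible (minpoly ℚ β) := minpoly.irreducible hw.1.isIntegral
  have h3 : Associated (minpoly ℚ β) f := h2.associated_of_dvd hf h1
  obtain ⟨C, hC⟩ := h3.symm.dvd
  rw [hC, map_mul, hz, zero_mul]

end Run7.h307.LI
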