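import Pool.Agent.Run7.h307.LI.Kill
import Pool.Agent.Y143.Mon

/-!
# The trace on the kernel of the monodromy operator
-/

set_option autoImplicit false
set_option linter.unusedSectionVars false

namespace Run7.h307.LI

open Polynomial Module Pool.Agent.Y143 Run7.h615.WL

section

variable {Ω : Type} [Field Ω] [CharZero Ω] {V : Type} [AddCommGroup V] [Module Ω V]
  [FiniteDimensional Ω V]

lemma trace_proj {S : Submodule Ω V} {g : Module.End Ω V} (hg : ∀ x ∈ S, g x ∈ S)
    {π : Module.End Ω V} (h1 : ∀ x, π x ∈ S) (h2 : ∀ x ∈ S, π x = x) :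
    LinearMap.trace Ω V (g * π) = LinearMap.trace Ω S (g.restrict hg) := by
  have h3 : ∀ x, (g * π) x ∈ S := fun x => hg _ (h1 x)
  rw [← LinearMap.trace_restrict_eq_of_forall_mem S (g * π) h3]
  congr 1
  apply LinearMap.ext
  intro x
  apply Subtype.ext
  show g (π x) = g x
  rw [h2 x x.2]

/-- The kernel of `N` is stable. -/
lemma ker_stable {N g : Module.End Ω V} {c : Ω} (hc : ∀ x, N (g x) = c • g (N x)) :
    ∀ x ∈ LinearMap.ker N, g x ∈ LinearMap.ker N := by
  intro x hx
  rw [LinearMap.mem_ker] at hx ⊢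
  rw [hc, hx, map_zero, smul_zero]

lemma exists_section {N : Module.End Ω V} {M : ℤ → Submodule Ω V}
    (hN : IsMonodromyFiltration N M) {P2 : Module.End Ω V} (h2 : ∀ x, P2 x ∈ M (-2)) :
    ∃ S : Module.End Ω V, (∀ x, S x ∈ M 0) ∧ ∀ x, N (S x) = P2 x := by
  have hmap : ∀ x : M 0, N x ∈ M (-2) := fun x => by
    have := hN.map 0 x x.2
    simpa using this
  let f : M 0 →ₗ[Ω] M (-2) := (N ∘ₗ (M 0).subtype).codRestrict (M (-2)) hmap
  have hf : Function.Surjective f := by
    rintro ⟨y, hy⟩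
    obtain ⟨x, hx, hxy⟩ := hN.on.surj_exact 2 y (by simpa using hy)
    refine ⟨⟨N x, ?_⟩, ?_⟩
    · have := hN.map _ _ hx
      simpa using this
    · apply Subtype.ext
      show N (N x) = y
      rw [← hxy, pow_two, Module.End.mul_apply]
  obtain ⟨s, hs⟩ := f.exists_rightInverse_of_surjective (LinearMap.range_eq_top.2 hf)
  refine ⟨(M 0).subtype ∘ₗ s ∘ₗ P2.codRestrict (M (-2)) h2, fun x => (s _).2, fun x => ?_⟩
  have h3 := LinearMap.congr_fun hs (P2.codRestrict (M (-2)) h2 x)
  exact congrArg Subtype.val h3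

theorem trace_ker {N g : Module.End Ω V} {M : ℤ → Submodule Ω V}
    (hN : IsMonodromyFiltration N M) (hg : ∀ x ∈ M 0, g x ∈ M 0) {c : Ω}
    (hc : ∀ x, N (g x) = c • g (N x)) {P0 P2 : Module.End Ω V} (h0 : ∀ x, P0 x ∈ M 0)
    (h0' : ∀ x ∈ M 0, P0 x = x) (h2 : ∀ x, P2 x ∈ M (-2)) (hP2 : ∀ x ∈ M (-2), P2 x = x) :
    LinearMap.trace Ω (LinearMap.ker N) (g.restrict (ker_stable hc)) =
      LinearMap.trace Ω V (g * P0) - c * LinearMap.trace Ω V (g * P2) := by
  obtain ⟨S, hS0, hS⟩ := exists_section hN h2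
  have hker : ∀ x, N x = 0 → x ∈ M 0 := fun x hx =>
    hN.on.ker_le 0 Submodule.mem_top (by simpa using hx)
  have key := trace_proj (ker_stable hc) (π := (1 - S * N) * P0) ?_ ?_
  · rw [← key]
    have e1 : g * ((1 - S * N) * P0) = g * P0 - g * (S * (N * P0)) := by noncomm_ring
    rw [e1, map_sub]
    congr 1
    rw [← mul_assoc, LinearMap.trace_mul_comm]
    have e2 : N * P0 * (g * S) = c • (g * P2) := by
      apply LinearMap.ext
      intro x
      simp only [Module.End.mul_apply, LinearMap.smul_apply]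
      rw [h0' _ (hg _ (hS0 x)), hc, hS]
    rw [e2, map_smul, smul_eq_mul]
  · intro x
    rw [LinearMap.mem_ker]
    have h5 : N (P0 x) ∈ M (-2) := by
      have := hN.map 0 _ (h0 x)
      simpa using this
    simp only [Module.End.mul_apply, LinearMap.sub_apply, Module.End.one_apply, map_sub]
    rw [hS, hP2 _ h5, sub_self]
  · intro x hx
    rw [LinearMap.mem_ker] at hx
    simp only [Module.End.mul_apply, LinearMap.sub_apply, Module.End.one_apply]
    rw [h0' x (hker x hx), hx, map_zero, sub_zero]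

/-- The trace of a polynomial without constant term. -/
lemma trace_pe [IsAlgClosed Ω] (g : Module.End Ω V) (P : ℚ[X]) (hP : P.coeff 0 = 0) (τ : ℕ → ℚ)
    (hτ : ∀ k, 0 < k → LinearMap.trace Ω V (g ^ k) = (τ k : Ω)) :
    LinearMap.trace Ω V (pe g P) =
      ((∑ k ∈ Finset.range (P.natDegree + 1), P.coeff k * τ k : ℚ) : Ω) := by
  have h1 : pe g P = ∑ k ∈ Finset.range (P.natDegree + 1), ((P.coeff k : ℚ) : Ω) • g ^ k := by
    conv_lhs => rw [P.as_sum_range]
    have h2 : ∀ (s : Finset ℕ), pe g (∑ k ∈ s, monomial k (P.coeff k)) =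
        ∑ k ∈ s, ((P.coeff k : ℚ) : Ω) • g ^ k := by
      intro s
      classical
      induction s using Finset.induction_on with
      | empty =>
        unfold pe
        simp
      | insert a s ha ih => rw [Finset.sum_insert ha, Finset.sum_insert ha, pe_add, pe_monomial, ih]
    exact h2 _
  rw [h1, map_sum]
  push_cast
  refine Finset.sum_congr rfl fun k _ => ?_
  rw [map_smul, smul_eq_mul]
  rcases Nat.eq_zero_or_pos k with rfl | hk
  · rw [hP]
    simp
  · rw [hτ k hk]

/-- The projection onto a step of the filtration. -/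
lemma Fil.proj [IsAlgClosed Ω] {q : ℕ} {m d : ℤ} {g : Module.End Ω V} {M : ℤ → Submodule Ω V}
    (H : Fil q m d g M) {A B u v : ℚ[X]} (hAB : pe g (A * B) = 0) (huv : u * A + v * B = 1)
    (s : ℤ) (hA : ∀ z : ℂ, aeval z A = 0 → ‖z‖ ≤ absv q m d s)
    (hB : ∀ z : ℂ, aeval z B = 0 → absv q m d s < ‖z‖) :
    (∀ x, pe g (v * B) x ∈ M s) ∧ ∀ x ∈ M s, pe g (v * B) x = x := by
  obtain ⟨h1, h2⟩ := H.kill hAB s hA hB
  constructor
  · intro x
    rw [mul_comm, pe_mul, Module.End.mul_apply]
    exact h2 _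
  · intro x hx
    have h3 : pe g (u * A + v * B) x = x := by rw [huv, pe_one, Module.End.one_apply]
    rw [pe_add, LinearMap.add_apply, pe_mul g u A, Module.End.mul_apply, h1 x hx, map_zero,
      zero_add] at h3
    exact h3

end

end Run7.h307.LI
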